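import Pool.Agent.H86.IR.Targets2

/-!
# The sum of the residues (RHO)
-/

set_option autoImplicit false

open Complex

namespace Pool.Agent.H39.IR

open Pool.Agent.H86.IR

theorem exp_sub_exp (x y : ℝ) : cexp (x * I) - cexp (y * I) =
    I * cexp ((x / 2 : ℝ) * I) * cexp ((y / 2 : ℝ) * I) *
      ((2 * Real.sin ((x - y) / 2) : ℝ) : ℂ) := by
  have h1 : cexp (x * I) = cexp ((x / 2 : ℝ) * I) * cexp ((x / 2 : ℝ) * I) := by
    rw [← Complex.exp_add]; congr 1; push_cast; ring
  have h2 : cexp (y * I) = cexp ((y / 2 : ℝ) * I) * cexp ((y / 2 : ℝ) * I) := by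
    rw [← Complex.exp_add]; congr 1; push_cast; ring
  have h3 : ((2 * Real.sin ((x - y) / 2) : ℝ) : ℂ) =
      (cexp (-(((x - y) / 2 : ℝ) : ℂ) * I) - cexp ((((x - y) / 2 : ℝ) : ℂ) * I)) * I := by
    push_cast
    rw [Complex.two_sin]
  have h4 : cexp ((x / 2 : ℝ) * I) * cexp (-(((x - y) / 2 : ℝ) : ℂ) * I) =
      cexp ((y / 2 : ℝ) * I) := by
    rw [← Complex.exp_add]; congr 1; push_cast; ring
  have h5 : cexp ((y / 2 : ℝ) * I) * cexp ((((x - y) / 2 : ℝ) : ℂ) * I) =
      cexp ((x / 2 : ℝ) * I) := by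
    rw [← Complex.exp_add]; congr 1; push_cast; ring
  have hI : I * I = -1 := Complex.I_mul_I
  rw [h3, h1, h2]
  generalize cexp ((x / 2 : ℝ) * I) = u at *
  generalize cexp ((y / 2 : ℝ) * I) = v at *
  generalize cexp (-(((x - y) / 2 : ℝ) : ℂ) * I) = p at *
  generalize cexp ((((x - y) / 2 : ℝ) : ℂ) * I) = q at *
  linear_combination (u * v * (q - p)) * hI + v * h4 - u * h5

theorem rho (hLAG : T_LAG) : T_RHO := by
  intro m x y hm hxy hyx hlast
  have hpi := Real.pi_pos
  have hmono : ∀ i j, i ≤ j → j < m → x i ≤ x j := by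
    intro i j hij
    induction j, hij using Nat.le_induction with
    | base => intro _; exact le_rfl
    | succ j _ ih =>
      intro hj
      exact (ih (by omega)).trans ((hxy j (by omega)).trans (hyx j hj)).le
  have hyx' : ∀ i j, i < j → j < m → y i < x j := fun i j hij hj =>
    (hyx i (by omega)).trans_le (hmono _ _ hij hj)
  have hxy' : ∀ i j, i ≤ j → j < m → x i < y j := fun i j hij hj =>
    (hmono _ _ hij hj).trans_lt (hxy j hj)
  have hytop : ∀ j < m, y j < x 0 + 2 * Real.pi := by
    intro j hj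
    rcases Nat.lt_or_ge j (m - 1) with h | h
    · exact ((hyx' j (m - 1) h (by omega)).trans (hxy (m - 1) (by omega))).trans hlast
    · have : j = m - 1 := by omega
      rw [this]; exact hlast
  have hstrict : ∀ i j, i < j → j < m → x i < x j := fun i j hij hj =>
    (hxy i (by omega)).trans (hyx' i j hij hj)
  -- signs
  have sneg : ∀ t : ℝ, t < 0 → -(2 * Real.pi) < t → 2 * Real.sin (t / 2) < 0 := by
    intro t h1 h2
    have := Real.sin_neg_of_neg_of_neg_pi_lt (show t / 2 < 0 by linarith)
      (show -Real.pi < t / 2 by linarith)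
    linarith
  have spos : ∀ t : ℝ, 0 < t → t < 2 * Real.pi → 0 < 2 * Real.sin (t / 2) := by
    intro t h1 h2
    have := Real.sin_pos_of_pos_of_lt_pi (show 0 < t / 2 by linarith)
      (show t / 2 < Real.pi by linarith)
    linarith
  let ε : ℕ → ℕ → ℝ := fun i j => if j < i then 1 else -1
  have ha : ∀ i < m, ∀ j < m, 2 * Real.sin ((x i - y j) / 2) =
      ε i j * |2 * Real.sin ((x i - y j) / 2)| := by
    intro i hi j hj
    simp only [ε]
    have h0 := hmono 0 i (by omega) hi
    have h1 := hytop j hj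
    split_ifs with h
    · have h2 := hyx' j i h hi
      have h3 := hytop i hi
      have h4 := hxy i hi
      have h5 := hxy' 0 j (by omega) hj
      rw [abs_of_pos (spos _ (by linarith) (by linarith))]; ring
    · have h2 := hxy' i j (by omega) hj
      rw [abs_of_neg (sneg _ (by linarith) (by linarith))]; ring
  have hb : ∀ i < m, ∀ j < m, j ≠ i → 2 * Real.sin ((x i - x j) / 2) =
      ε i j * |2 * Real.sin ((x i - x j) / 2)| ∧ 0 < |2 * Real.sin ((x i - x j) / 2)| := by
    intro i hi j hj hji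
    simp only [ε]
    have h0 := hmono 0 i (by omega) hi
    have h0' := hmono 0 j (by omega) hj
    have h1 := hytop j hj
    have h1' := hxy j hj
    have h3 := hytop i hi
    have h4 := hxy i hi
    split_ifs with h
    · have h2 := hstrict j i h hi
      have hp := spos (x i - x j) (by linarith) (by linarith)
      rw [abs_of_pos hp]
      exact ⟨by ring, hp⟩
    · have h2 := hstrict i j (by omega) hj
      have hp := sneg (x i - x j) (by linarith) (by linarith)
      rw [abs_of_neg hp]
      exact ⟨by ring, by linarith⟩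
  let A : ℕ → ℝ := fun i => ∏ j ∈ Finset.range m, |2 * Real.sin ((x i - y j) / 2)|
  let B : ℕ → ℝ := fun i => ∏ j ∈ (Finset.range m).erase i, |2 * Real.sin ((x i - x j) / 2)|
  let E : ℕ → ℝ := fun i => ∏ j ∈ (Finset.range m).erase i, ε i j
  have hE : ∀ i, E i ≠ 0 := by
    intro i
    refine Finset.prod_ne_zero_iff.2 fun j _ => ?_
    simp only [ε]
    split_ifs <;> norm_num
  have hBpos : ∀ i < m, 0 < B i := by
    intro i hi
    refine Finset.prod_pos fun j hj => ?_
    rw [Finset.mem_erase, Finset.mem_range] at hj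
    exact (hb i hi j hj.2 hj.1).2
  have hA : ∀ i < m, ∏ j ∈ Finset.range m, (2 * Real.sin ((x i - y j) / 2)) = -(E i * A i) := by
    intro i hi
    have e1 : ∏ j ∈ Finset.range m, (2 * Real.sin ((x i - y j) / 2)) =
        ∏ j ∈ Finset.range m, ε i j * |2 * Real.sin ((x i - y j) / 2)| :=
      Finset.prod_congr rfl fun j hj => ha i hi j (Finset.mem_range.1 hj)
    rw [e1, Finset.prod_mul_distrib]
    have e2 : ∏ j ∈ Finset.range m, ε i j = ε i i * E i :=
      (Finset.mul_prod_erase (Finset.range m) (ε i) (Finset.mem_range.2 hi)).symm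
    have e3 : ε i i = -1 := by simp [ε]
    rw [e2, e3]
    ring
  have hB : ∀ i < m, ∏ j ∈ (Finset.range m).erase i, (2 * Real.sin ((x i - x j) / 2)) =
      E i * B i := by
    intro i hi
    have e1 : ∏ j ∈ (Finset.range m).erase i, (2 * Real.sin ((x i - x j) / 2)) =
        ∏ j ∈ (Finset.range m).erase i, ε i j * |2 * Real.sin ((x i - x j) / 2)| := by
      refine Finset.prod_congr rfl fun j hj => ?_
      rw [Finset.mem_erase, Finset.mem_range] at hj
      exact (hb i hi j hj.2 hj.1).1
    rw [e1, Finset.prod_mul_distrib]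
  -- Lagrange
  let z : ℕ → ℂ := fun i => cexp (x i * I)
  let w : ℕ → ℂ := fun j => cexp (y j * I)
  let u : ℕ → ℂ := fun i => cexp ((x i / 2 : ℝ) * I)
  let v : ℕ → ℂ := fun j => cexp ((y j / 2 : ℝ) * I)
  have hu : ∀ i, u i ≠ 0 := fun i => Complex.exp_ne_zero _
  have hzu : ∀ i, z i = u i * u i := by
    intro i
    simp only [z, u]
    rw [← Complex.exp_add]; congr 1; push_cast; ring
  have hzw : ∀ i j, z i - w j = (I * u i * v j) * ((2 * Real.sin ((x i - y j) / 2) : ℝ) : ℂ) :=
    fun i j => exp_sub_exp (x i) (y j)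
  have hzz : ∀ i j, z i - z j = (I * u i * u j) * ((2 * Real.sin ((x i - x j) / 2) : ℝ) : ℂ) :=
    fun i j => exp_sub_exp (x i) (x j)
  have hLz : ∀ i < m, ∀ j < m, i ≠ j → z i ≠ z j := by
    intro i hi j hj hij h
    have h1 := hzz i j
    rw [sub_eq_zero.2 h] at h1
    have h2 := (hb i hi j hj (Ne.symm hij)).2
    have h3 : ((2 * Real.sin ((x i - x j) / 2) : ℝ) : ℂ) ≠ 0 := by
      rw [Ne, Complex.ofReal_eq_zero]
      exact abs_pos.1 h2
    exact absurd h1.symm (mul_ne_zero (mul_ne_zero (mul_ne_zero Complex.I_ne_zero (hu i)) (hu j)) h3)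
  have key := hLAG m z w hm (fun i _ => Complex.exp_ne_zero _) hLz
  have hR : ∀ i ∈ Finset.range m, (∏ j ∈ Finset.range m, (z i - w j)) /
      (z i * ∏ j ∈ (Finset.range m).erase i, (z i - z j)) =
      -(I * ((∏ j ∈ Finset.range m, v j) / ∏ j ∈ Finset.range m, u j)) *
        ((A i / B i : ℝ) : ℂ) := by
    intro i hi'
    have hi := Finset.mem_range.1 hi'
    have e1 : ∏ j ∈ Finset.range m, (z i - w j) =
        (I * u i) ^ m * (∏ j ∈ Finset.range m, v j) * ((-(E i * A i) : ℝ) : ℂ) := by
      rw [← hA i hi, Complex.ofReal_prod]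
      rw [Finset.prod_congr rfl fun j _ => hzw i j, Finset.prod_mul_distrib,
        Finset.prod_mul_distrib, Finset.prod_const, Finset.card_range]
    have hcard : ((Finset.range m).erase i).card = m - 1 := by
      rw [Finset.card_erase_of_mem hi', Finset.card_range]
    have e2 : ∏ j ∈ (Finset.range m).erase i, (z i - z j) =
        (I * u i) ^ (m - 1) * (∏ j ∈ (Finset.range m).erase i, u j) *
          ((E i * B i : ℝ) : ℂ) := by
      rw [← hB i hi, Complex.ofReal_prod]
      rw [Finset.prod_congr rfl fun j _ => hzz i j, Finset.prod_mul_distrib,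
        Finset.prod_mul_distrib, Finset.prod_const, hcard]
    have e3 : ∏ j ∈ Finset.range m, u j = u i * ∏ j ∈ (Finset.range m).erase i, u j :=
      (Finset.mul_prod_erase (Finset.range m) u hi').symm
    have hm1 : (I * u i) ^ m = (I * u i) * (I * u i) ^ (m - 1) := by
      rw [← pow_succ']
      congr 1
      omega
    rw [e1, e2, e3, hzu, hm1]
    have n1 : (I * u i) ^ (m - 1) ≠ 0 := pow_ne_zero _ (mul_ne_zero Complex.I_ne_zero (hu i))
    have n2 : ∏ j ∈ (Finset.range m).erase i, u j ≠ 0 := Finset.prod_ne_zero_iff.2 fun j _ => hu j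
    have n3 : ((E i : ℝ) : ℂ) ≠ 0 := by
      rw [Ne, Complex.ofReal_eq_zero]; exact hE i
    have n4 : ((B i : ℝ) : ℂ) ≠ 0 := by
      rw [Ne, Complex.ofReal_eq_zero]; exact (hBpos i hi).ne'
    have n5 := hu i
    push_cast
    generalize (I * u i) ^ (m - 1) = Q at *
    generalize ∏ j ∈ (Finset.range m).erase i, u j = U at *
    generalize ∏ j ∈ Finset.range m, v j = V at *
    generalize u i = a at *
    field_simp
  rw [Finset.sum_congr rfl hR, ← Finset.mul_sum, ← Complex.ofReal_sum] at key
  have hnu : ∀ i, ‖u i‖ = 1 := fun i => Complex.norm_exp_ofReal_mul_I _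
  have hnv : ∀ i, ‖v i‖ = 1 := fun i => Complex.norm_exp_ofReal_mul_I _
  have hnz : ∀ i, ‖z i‖ = 1 := fun i => Complex.norm_exp_ofReal_mul_I _
  have hnw : ∀ i, ‖w i‖ = 1 := fun i => Complex.norm_exp_ofReal_mul_I _
  have hn := congrArg norm key
  rw [norm_mul, norm_neg, norm_mul, norm_div, Complex.norm_I, norm_prod, norm_prod,
    Finset.prod_congr rfl fun j _ => hnv j, Finset.prod_congr rfl fun j _ => hnu j,
    Complex.norm_real, Real.norm_eq_abs] at hn
  simp only [Finset.prod_const_one, div_one, mul_one, one_mul] at hn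
  have hfin : ‖1 - (∏ j ∈ Finset.range m, w j) / ∏ j ∈ Finset.range m, z j‖ ≤ 2 := by
    refine (norm_sub_le _ _).trans ?_
    rw [norm_div, norm_prod, norm_prod, Finset.prod_congr rfl fun j _ => hnw j,
      Finset.prod_congr rfl fun j _ => hnz j]
    simp only [Finset.prod_const_one, div_one, norm_one]
    norm_num
  rw [← hn] at hfin
  exact (le_abs_self _).trans hfin

end Pool.Agent.H39.IR
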