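import Pool.Agent.H86.IR.Targets1

/-!
# The smoothed potential (WK)
-/

set_option autoImplicit false

open Complex Topology Filter InnerProductSpace MeasureTheory Laplacian

namespace Pool.Agent.H39.IR

open Pool.Agent.H86.IR

theorem wk (hCH : T_CH) (hPSI : T_PSI) : T_WK := by
  intro D b G γ hG δ hδ
  obtain ⟨ψ, c, hψC, hψ0, hψ1, hc0, hc1, hψpos, hψ2⟩ := hPSI δ hδ
  obtain ⟨hop, hmem, hharm, ⟨H, hH, hHb, hGH⟩, hcpt⟩ := hG
  have hK := hcpt δ hδ
  let K : Set ℂ := {w | w ∈ D ∧ (w = b ∨ δ ≤ G w)}
  have hbK : b ∈ K := ⟨hmem, Or.inl rfl⟩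
  let L : ℂ → ℝ := fun z => Real.log ‖z - b‖
  have hL : ∀ z, z ≠ b → HarmonicAt L z := by
    intro z hz
    exact AnalyticAt.harmonicAt_log_norm (f := fun z => z - b) (by fun_prop)
      (sub_ne_zero.2 hz)
  classical
  let w : ℂ → ℝ := fun z => if z = b then γ - c else if z ∈ D then ψ (G z) + L z else L z
  have hwL : ∀ z, z ∉ K → w z = L z := by
    intro z hz
    have hzb : z ≠ b := fun h => hz (h ▸ hbK)
    simp only [w, if_neg hzb]
    split_ifs with hD
    · have : G z < δ := by
        by_contra h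
        exact hz ⟨hD, Or.inr (not_lt.1 h)⟩
      rw [hψ0 _ this.le, zero_add]
    · rfl
  have hwD : ∀ z ∈ D, z ≠ b → w z = ψ (G z) + L z := by
    intro z hz hzb
    simp only [w, if_neg hzb, if_pos hz]
  have hwb : w b = γ - c := by simp [w]
  have main : ∀ z, ContDiffAt ℝ 2 w z ∧ 0 ≤ (Δ w) z := by
    intro z
    by_cases hz : z ∈ K
    · by_cases hzb : z = b
      · -- the pole
        rw [hzb]
        have hlog : Tendsto L (𝓝[≠] b) atBot := by
          have h1 : Tendsto (fun z : ℂ => ‖z - b‖) (𝓝[≠] b) (𝓝[>] 0) :=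
            tendsto_norm_sub_self_nhdsNE b
          exact Real.tendsto_log_nhdsGT_zero.comp h1
        have hHt : Tendsto H (𝓝[≠] b) (𝓝 (H b)) :=
          (hH.1.continuousAt.tendsto).mono_left nhdsWithin_le_nhds
        have hGt : Tendsto (fun z => H z - L z) (𝓝[≠] b) atTop := by
          simp only [sub_eq_add_neg]
          exact hHt.add_atTop (tendsto_neg_atBot_atTop.comp hlog)
        have hev : w =ᶠ[𝓝 b] fun z => H z - c := by
          have h1 : ∀ᶠ z in 𝓝[≠] b, w z = H z - c := by
            filter_upwards [hGH, hGt.eventually_ge_atTop (2 * δ),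
              mem_nhdsWithin_of_mem_nhds (hop.mem_nhds hmem), self_mem_nhdsWithin] with
              z h1 h2 h3 h4
            rw [hwD z h3 h4, hψ1 (G z) (by rw [h1]; exact h2), h1]
            simp only [L]
            ring
          have h2 : w b = H b - c := by rw [hwb, hHb]
          rw [Filter.EventuallyEq, ← nhdsNE_sup_pure]
          exact Filter.eventually_sup.2 ⟨h1, Filter.eventually_pure.2 h2⟩
        have hHc : HarmonicAt (fun z => H z - c) b := by
          have := hH.sub (harmonicAt_const (x := b) c)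
          exact this
        refine ⟨hHc.1.congr_of_eventuallyEq hev, ?_⟩
        rw [(laplacian_congr_nhds hev).eq_of_nhds, hHc.2.eq_of_nhds]
        simp
      · have hzD : z ∈ D := hz.1
        have hev : w =ᶠ[𝓝 z] ((fun z => ψ (G z)) + L) := by
          filter_upwards [hop.mem_nhds hzD, isOpen_ne.mem_nhds hzb] with x h1 h2
          exact hwD x h1 h2
        have hGz := hharm z hzD hzb
        have h1 : ContDiffAt ℝ 2 (fun z => ψ (G z)) z := hψC.contDiffAt.comp z hGz.1
        have h2 := hL z hzb
        refine ⟨(h1.add h2.1).congr_of_eventuallyEq hev, ?_⟩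
        rw [(laplacian_congr_nhds hev).eq_of_nhds, h1.laplacian_add h2.1, h2.2.eq_of_nhds,
          hCH G z ψ hGz.1 hψC, hGz.2.eq_of_nhds]
        have h3 := hψ2 (G z)
        simp only [Pi.zero_apply, mul_zero, add_zero]
        positivity
    · have hev : w =ᶠ[𝓝 z] L := by
        filter_upwards [hK.isClosed.isOpen_compl.mem_nhds hz] with x hx
        exact hwL x hx
      have hzb : z ≠ b := fun h => hz (h ▸ hbK)
      have h2 := hL z hzb
      refine ⟨h2.1.congr_of_eventuallyEq hev, ?_⟩
      rw [(laplacian_congr_nhds hev).eq_of_nhds, h2.2.eq_of_nhds]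
      simp
  refine ⟨w, K, contDiff_iff_contDiffAt.2 fun z => (main z).1, hK, fun z hz => hz.1, hbK,
    hwL, fun z => (main z).2, ?_, ?_⟩
  · intro z hz
    by_cases hD : z ∈ D
    · rw [hwD z hD hz]
      have := hψpos (G z)
      simp only [L]
      linarith
    · simp only [w, if_neg hz, if_neg hD]
      exact le_rfl
  · rw [hwb]
    linarith

end Pool.Agent.H39.IR
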